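import Mathlib

set_option autoImplicit false

namespace Pool.Agent.Results.MP_4efd57_nt.CorrelatedDiscrepancyBounded

/-- The regular paperfolding sequence `χ₄ (odd part of n)`. -/
def g (n : ℕ) : ℤ := ZMod.χ₄ ((n / 2 ^ n.factorization 2 : ℕ) : ZMod 4)

lemma g_mul (m n : ℕ) : g (m * n) = g m * g n := by
  unfold g
  rw [Nat.ordCompl_mul m n 2]
  push_cast
  rw [map_mul]

lemma g_odd (m : ℕ) (hm : m % 2 = 1) : g m = ZMod.χ₄ (m : ZMod 4) := by
  unfold g
  have h : m.factorization 2 = 0 := by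
    apply Nat.factorization_eq_zero_of_not_dvd
    omega
  rw [h]; simp

lemma g_two : g 2 = 1 := by
  unfold g
  have h : (2 : ℕ).factorization 2 = 1 := by
    exact Nat.Prime.factorization_self Nat.prime_two
  rw [h]; simp

lemma g_two_mul (m : ℕ) : g (2 * m) = g m := by
  rw [g_mul, g_two, one_mul]

lemma g_sq (n : ℕ) (hn : 1 ≤ n) : g n * g n = 1 := by
  unfold g
  set u := n / 2 ^ n.factorization 2 with hu
  have hodd : ¬ 2 ∣ u := Nat.not_dvd_ordCompl Nat.prime_two (by omega)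
  have h4 : u % 4 = 1 ∨ u % 4 = 3 := by omega
  rw [ZMod.χ₄_nat_eq_if_mod_four]
  have h2 : ¬ (u % 2 = 0) := by omega
  rw [if_neg h2]
  rcases h4 with h | h
  · rw [if_pos h]; norm_num
  · rw [if_neg (by omega)]; norm_num

lemma g_pair (j : ℕ) : g (2 * j + 1) + g (2 * j + 3) = 0 := by
  rw [g_odd _ (by omega), g_odd _ (by omega)]
  rw [ZMod.χ₄_nat_eq_if_mod_four, ZMod.χ₄_nat_eq_if_mod_four]
  have h1 : ¬ ((2 * j + 1) % 2 = 0) := by omega
  have h2 : ¬ ((2 * j + 3) % 2 = 0) := by omega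
  rw [if_neg h1, if_neg h2]
  by_cases h : (2 * j + 1) % 4 = 1
  · rw [if_pos h, if_neg (by omega)]; norm_num
  · rw [if_neg h, if_pos (by omega)]; norm_num

lemma sum_even (m : ℕ) : ∑ k ∈ Finset.Icc 1 (2 * m), g k * g (k + 1) = 0 := by
  induction m with
  | zero => simp
  | succ m ih =>
    have e : 2 * (m + 1) = 2 * m + 1 + 1 := by ring
    rw [e, Finset.sum_Icc_succ_top (by omega), Finset.sum_Icc_succ_top (by omega), ih]
    have h := g_pair m
    have h3 : g (2 * m + 3) = - g (2 * m + 1) := by linarith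
    have e2 : 2 * m + 1 + 1 + 1 = 2 * m + 3 := by ring
    rw [e2, h3]
    ring

lemma sum_abs_le (n : ℕ) : |∑ k ∈ Finset.Icc 1 n, g k * g (k + 1)| ≤ 1 := by
  rcases Nat.even_or_odd' n with ⟨m, hm | hm⟩
  · rw [hm, sum_even]; norm_num
  · rw [hm, Finset.sum_Icc_succ_top (by omega), sum_even, zero_add]
    have h1 := g_sq (2 * m + 1) (by omega)
    have h2 := g_sq (2 * m + 1 + 1) (by omega)
    have h3 : (g (2 * m + 1) * g (2 * m + 1 + 1)) ^ 2 = 1 := by
      have : (g (2 * m + 1) * g (2 * m + 1 + 1)) ^ 2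
        = (g (2 * m + 1) * g (2 * m + 1)) * (g (2 * m + 1 + 1) * g (2 * m + 1 + 1)) := by ring
      rw [this, h1, h2]; norm_num
    rw [← sq_le_one_iff_abs_le_one, h3]

/-- There is a completely multiplicative `f : ℕ → {-1, 1}` whose correlated discrepancy sums
`∑_{k ≤ n} f (k d) f (k d + d)` are bounded by `1` for all `d` and `n`. -/
theorem result :
    ∃ f : ℕ → ℂ, (∀ n : ℕ, 1 ≤ n → f n = 1 ∨ f n = -1) ∧
      (∀ m n : ℕ, 1 ≤ m → 1 ≤ n → f (m * n) = f m * f n) ∧
      ∀ d n : ℕ, 1 ≤ d → 1 ≤ n →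
        ‖∑ k ∈ Finset.Icc 1 n, f (k * d) * f (k * d + d)‖ ≤ 1 := by
  refine ⟨fun n => ((g n : ℤ) : ℂ), ?_, ?_, ?_⟩
  · intro n hn
    have h := g_sq n hn
    have h' : (g n - 1) * (g n + 1) = 0 := by linarith [h, show (g n - 1) * (g n + 1) = g n * g n - 1 by ring]
    rcases mul_eq_zero.mp h' with h1 | h1
    · left
      have : g n = 1 := by linarith
      simp [this]
    · right
      have : g n = -1 := by linarith
      simp [this]
  · intro m n _ _
    simp only [g_mul]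
    push_cast
    ring
  · intro d n hd _
    have e : ∑ k ∈ Finset.Icc 1 n, ((g (k * d) : ℤ) : ℂ) * ((g (k * d + d) : ℤ) : ℂ)
        = ((∑ k ∈ Finset.Icc 1 n, g k * g (k + 1) : ℤ) : ℂ) := by
      push_cast
      apply Finset.sum_congr rfl
      intro k _
      have h1 : k * d + d = (k + 1) * d := by ring
      have h2 := g_sq d hd
      rw [h1, g_mul k d, g_mul (k + 1) d]
      have h3 : ((g d : ℤ) : ℂ) * ((g d : ℤ) : ℂ) = 1 := by
        exact_mod_cast h2
      push_cast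
      calc ((g k : ℤ) : ℂ) * ((g d : ℤ) : ℂ) * (((g (k + 1) : ℤ) : ℂ) * ((g d : ℤ) : ℂ))
          = ((g k : ℤ) : ℂ) * ((g (k + 1) : ℤ) : ℂ) * (((g d : ℤ) : ℂ) * ((g d : ℤ) : ℂ)) := by ring
        _ = _ := by rw [h3, mul_one]
    simp only at e ⊢
    rw [e, Complex.norm_intCast]
    exact_mod_cast sum_abs_le n

end Pool.Agent.Results.MP_4efd57_nt.CorrelatedDiscrepancyBounded
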